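import Pool.Agent.H41.LS.Defs
import Pool.Agent.H41.LS.Calc

namespace Pool.Agent.Results.MP_61ae3e_pr.AddingEdgeRaisesMaxLoad

open scoped ENNReal NNReal
open Pool.Agent.H41.LS

/-- There are connected graphs `G ≤ G'` on five vertices such that, after four balls, the maximum
load is at least two with probability `44/625` for `G` and with the larger probability `51/625`
for `G'`. -/
theorem result : ∃ G G' : SimpleGraph (Fin 5), G ≤ G' ∧ G.Connected ∧
    probMaxGe G 4 2 = 44 / 625 ∧ probMaxGe G' 4 2 = 51 / 625 := by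
  have s1 : ∀ u v, adj1 u v = adj1 v u := by decide
  have s2 : ∀ u v, adj2 u v = adj2 v u := by decide
  have i1 : ∀ u, adj1 u u = false := by decide
  have i2 : ∀ u, adj2 u u = false := by decide
  let G1 : SimpleGraph (Fin 5) :=
    { Adj := fun u v => adj1 u v = true
      symm := ⟨fun u v h => (s1 v u).trans h⟩
      loopless := ⟨fun u h => by simp [i1] at h⟩ }
  let G2 : SimpleGraph (Fin 5) :=
    { Adj := fun u v => adj2 u v = true
      symm := ⟨fun u v h => (s2 v u).trans h⟩
      loopless := ⟨fun u h => by simp [i2] at h⟩ }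
  refine ⟨G1, G2, ?_, ?_, ?_, ?_⟩
  · intro u v h
    have h' : adj1 u v = true := h
    show adj2 u v = true
    simp [adj2, h']
  · have a : ∀ u v : Fin 5, adj1 u v = true → G1.Reachable u v :=
      fun u v h => SimpleGraph.Adj.reachable (G := G1) h
    have key : ∀ v : Fin 5, G1.Reachable 0 v := by
      intro v
      fin_cases v
      · exact SimpleGraph.Reachable.refl _
      · exact (a 0 2 (by decide)).trans (a 2 1 (by decide))
      · exact a 0 2 (by decide)
      · exact a 0 3 (by decide)
      · exact a 0 4 (by decide)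
    exact { preconnected := fun u v => (key u).symm.trans (key v), nonempty := ⟨0⟩ }
  · rw [prob_eq (G := G1) (adj := adj1) (fun u v => Iff.rfl)]
    have h : (stepQ adj1)^[4] (indQ 2) 0 = 44/625 := by decide +kernel
    rw [h]
    have : ((44 / 625 : ℚ≥0)) = ((44 : ℕ) : ℚ≥0) / ((625 : ℕ) : ℚ≥0) := by norm_num
    rw [this, cst_div _ _ (by norm_num)]
    simp [cst]
  · rw [prob_eq (G := G2) (adj := adj2) (fun u v => Iff.rfl)]
    have h : (stepQ adj2)^[4] (indQ 2) 0 = 51/625 := by decide +kernel
    rw [h]
    have : ((51 / 625 : ℚ≥0)) = ((51 : ℕ) : ℚ≥0) / ((625 : ℕ) : ℚ≥0) := by norm_num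
    rw [this, cst_div _ _ (by norm_num)]
    simp [cst]

end Pool.Agent.Results.MP_61ae3e_pr.AddingEdgeRaisesMaxLoad
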